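import Pool.Agent.Y218.SFg

/-!
# The numerical Hodge standard conjecture: one supersingular factor decides

Let `W` be a Weil cohomology theory on a class of smooth proper varieties over a field `k` which is
closed under products (for example `ℓ`-adic cohomology on the abelian varieties over an algebraically
closed field of characteristic `p`). Let `P i` be a family of polarized varieties of supersingular
type (`IsSupersingularFamily`), for example all supersingular elliptic curves, or all curves with
supersingular Jacobian: the transcendental cohomology (here `H^1`) of the members is in the middle
degree, the products of transcendental classes of two members are combinations of algebraic classes
(for supersingular curves: Deuring, Tate), and `D` and the numerical Hodge standard conjecture hold for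
the members and (the latter) for the products of two members (for curves: the Hodge index theorem on
surfaces).

Let `U` be an arbitrary polarized variety satisfying hard Lefschetz and let `Q` be one product of
members which has some transcendental cohomology, for example one supersingular elliptic curve. If
homological and numerical equivalence coincide on `Q × U` and the numerical Hodge standard conjecture
holds for `Q × U`, then the same is true for `R × U`, for **all** products `R` of members, with any
number of factors.

So for abelian varieties: if `A` is supersingular of any dimension, isogenous to `E ^ n`, and `B` is
any abelian variety, then the numerical Hodge standard conjecture for `E ^ n × B` (with the sum of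
polarizations of the factors) follows from the one for `E × B`; the hypothesis on homological and
numerical equivalence for `E × B` holds for infinitely many `ℓ` over an algebraic closure of a finite
field (Clozel). If `B` has dimension at most three, then `E × B` has dimension at most four and the
conjecture for `E × B` is the theorem of Ancona. So the numerical Hodge standard conjecture holds for
the varieties `E ^ n × B` of arbitrary dimension for which `B` is an abelian variety of dimension at
most three. (For `U` any surface, `E × U` is a threefold and the conjecture for it is the Hodge index
theorem.)
-/

namespace Pool.Agent.Results.MP_c0b458_ag.SupersingularFactors

open Pool.Agent.H914 Pool.Agent.H281R3.HT Pool.Agent.Y218.SF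

universe u v w

/-- `D` and the numerical Hodge standard conjecture for `Q × U`, for one product `Q` of members of the
family of supersingular type `P` which has transcendental cohomology, are equivalent to `D` and the
numerical Hodge standard conjecture for `R × U` for all products `R` of members. -/
theorem result {k : Type u} [Field k] {𝒱 : VarClass k} {ops : CycleOps 𝒱}
    (W : WeilCohomology.{u, v} ops) {ι : Type w} (P : ι → Polarized 𝒱)
    (hP : IsSupersingularFamily W P) (U : Polarized 𝒱) (hU : IsLefschetz W U)
    (Q : Polarized 𝒱) (hQ : IsProduct ops P Q) (hT : transcendental W Q.X ≠ ⊥) :
    (HomEqNum W (Q.prod ops U).X ∧ NumericalHodge ops (Q.prod ops U)) ↔
      ∀ R, IsProduct ops P R →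
        HomEqNum W (R.prod ops U).X ∧ NumericalHodge ops (R.prod ops U) :=
  ⟨fun h _ hR => family_numericalHodge_times hP hU hQ hR hT h.1 h.2, fun h => h Q hQ⟩

end Pool.Agent.Results.MP_c0b458_ag.SupersingularFactors
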